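import Pool.Agent.TutteEq.Final2
import Pool.Agent.TutteEq.AP
import Pool.Agent.TutteEq.Arith
import Pool.Agent.TutteEq.Arith2
import Pool.Agent.TutteEq.Card
import Pool.Agent.TutteEq.Cone
import Pool.Agent.TutteEq.ConePT
import Pool.Agent.TutteEq.Crude
import Pool.Agent.TutteEq.Fpras
import Pool.Agent.TutteEq.Gsn
import Pool.Agent.TutteEq.Lower
import Pool.Agent.TutteEq.Net
import Pool.Agent.TutteEq.NetW
import Pool.Agent.TutteEq.PTRed
import Pool.Agent.TutteEq.Par
import Pool.Agent.TutteEq.Par2
import Pool.Agent.TutteEq.Pert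
import Pool.Agent.TutteEq.Rank
import Pool.Agent.TutteEq.Red
import Pool.Agent.TutteEq.RedA
import Pool.Agent.TutteEq.RedB
import Pool.Agent.TutteEq.RedC
import Pool.Agent.TutteEq.RedD
import Pool.Agent.TutteEq.Sel
import Pool.Agent.TutteEq.Thick

/-!
# Approximating the Tutte polynomial near the origin: equivalence along the hyperbolas

Let `0 < q < 1`. All rational points of the quadrant `x', y' ≥ 0` on the hyperbola
`(x' - 1) (y' - 1) = q` reduce, by approximation-preserving reductions, to any rational point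
`(x, y)` with `|y| < 1` on the same hyperbola, and to any rational point with `|y| < 1` on the
hyperbola `(x - 1) (y - 1) = 1 + q`.
-/

set_option autoImplicit false

namespace Pool.Agent.Results.MP_9c4433_lc.HyperbolaEquiv

open Pool.Agent.TutteHard Pool.Agent.TutteEq Pool.Agent.PT

/-- approximation-preserving reduction from the function `F` to the function `F'` of multigraphs:
on input `(G, e)`, the accuracy being `ε = 1 / (|e| + 2)`, a graph `f (G, e)` and a rational number
`N / D ≥ 0` are computed in polynomial time, so that `N / D * F' (f (G, e))` is between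
`exp (-ε) * F G` and `exp ε * F G` -/
def APReduces (F F' : MGraph → ℝ) : Prop :=
  ∃ (f : MGraph × List Bool → MGraph) (N D : MGraph × List Bool → ℕ),
    N68a2faeb.IsPolyTime f ∧ N68a2faeb.IsPolyTime N ∧ N68a2faeb.IsPolyTime D ∧
    ∀ (G : MGraph) (e : List Bool), 0 < D (G, e) ∧
      Real.exp (-(1 / (e.length + 2))) * F G ≤
        (N (G, e) : ℝ) / (D (G, e) : ℝ) * F' (f (G, e)) ∧
      (N (G, e) : ℝ) / (D (G, e) : ℝ) * F' (f (G, e)) ≤ Real.exp (1 / (e.length + 2)) * F G

theorem APReduces.of_APRed {F F' : MGraph → ℝ} (h : APRed F F') : APReduces F F' := by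
  obtain ⟨f, N, D, hf, hN, hD, h⟩ := h
  exact ⟨f, N, D, hf.isPolyTime, hN.isPolyTime, hD.isPolyTime, h⟩

/-- **Theorem.** -/
theorem result : ∀ x y x' y' : ℚ, |y| < 1 → 0 ≤ x' → x' < 1 → 0 ≤ y' → y' < 1 →
    (x' - 1) * (y' - 1) ≠ 1 → ((x - 1) * (y - 1) = (x' - 1) * (y' - 1) ∨
      (x - 1) * (y - 1) = 1 + (x' - 1) * (y' - 1)) →
    APReduces (fun G => tutte G (x' : ℝ) (y' : ℝ)) (fun G => tutte G (x : ℝ) (y : ℝ)) ∧
      (HasFPRAS (x : ℝ) (y : ℝ) → HasFPRAS (x' : ℝ) (y' : ℝ)) := by
  have h2 := arith2 arith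
  have hg := gsn_pt arith h2
  have hA : S_RedA := redA arith h2 rank_pt tutteZt pert zero pos thick_spec
  have hd : S_Red := red netW
  have hB : S_RedB := redB arith h2 hg (sel arith h2 hg) rank_pt tutteZt pos pert netW
    chain_spec hd ptRed par par2
  have hC : S_RedC := redC arith h2 rank_pt tutteZt pos pert zero netW chain_spec hd ptRed
  have hD : S_RedD := redD arith h2 rank_pt card_pt conePT cone crude lower tutteZt zero
    thick_spec
  intro x y x' y' hy hx' hx1 hy' hy1 hne hxy
  have h := final2 tutteZt pos (ap_trans arith) (fpras arith h2) hA hB hC hD x y x' y' hy hx' hx1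
    hy' hy1 hne hxy
  exact ⟨APReduces.of_APRed h.1, h.2⟩

end Pool.Agent.Results.MP_9c4433_lc.HyperbolaEquiv
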