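import Pool.Agent.Lib_helper88.TutteHard.Sign

/-!
# Approximating the Tutte polynomial near the origin: a larger hard region

For every real point `(x, y)` with `|x|, |y| < 1`, `q = (x-1)(y-1) ≤ 32/27`, `q ≠ 1` and

* `y < -1/3`, `x < y²`, `x ≠ -2y-1`, or
* `x < -1/3`, `y < x²`, `y ≠ -2x-1`,

there is a point `(x', y')` of the Goldberg-Jerrum region `D` on the same hyperbola such that
`T(·; x', y')` reduces exactly, by a fixed gadget, to `T(·; x, y)`. Hence an FPRAS at `(x, y)`
gives a randomised polynomial-time algorithm for the sign of the Tutte polynomial at `(x', y')`.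
-/

set_option autoImplicit false

namespace Pool.Agent.Results.MP_9c4433_lc.NewHardRegion

open Pool.Agent.TutteHard

/-- the region `D` of the problem: the part of the square `|x|, |y| < 1` in which Goldberg and
Jerrum have shown hardness -/
def InD (x y : ℝ) : Prop :=
  |x| < 1 ∧ |y| < 1 ∧ (32 / 27 < (x - 1) * (y - 1) ∨
    (x < -2 * y - 1 ∧ (x - 1) * (y - 1) ≤ 32 / 27 ∧ (x - 1) * (y - 1) ≠ 1) ∨
    (y < -2 * x - 1 ∧ (x - 1) * (y - 1) ≤ 32 / 27 ∧ (x - 1) * (y - 1) ≠ 1))

/-- the region of this theorem -/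
def InR (x y : ℝ) : Prop :=
  |x| < 1 ∧ |y| < 1 ∧ (x - 1) * (y - 1) ≤ 32 / 27 ∧ (x - 1) * (y - 1) ≠ 1 ∧
    ((y < -(1 / 3) ∧ x < y ^ 2 ∧ x ≠ -2 * y - 1) ∨
     (x < -(1 / 3) ∧ y < x ^ 2 ∧ y ≠ -2 * x - 1))

/-- `T(·; x', y')` reduces to `T(·; x, y)`: a polynomial-time map `f` of graphs and constants
`c ≠ 0`, `l > 0` with `T(f G; x, y) = c ^ |E(G)| * l ^ r(G) * T(G; x', y')` for all `G` -/
def Shifts (x y x' y' : ℝ) : Prop :=
  ∃ (f : MGraph → MGraph) (c l : ℝ), N68a2faeb.IsPolyTime f ∧ c ≠ 0 ∧ 0 < l ∧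
    ∀ G : MGraph, tutte (f G) x y = c ^ G.length * l ^ rank G Finset.univ * tutte G x' y'

theorem Shifts.randSign {x y x' y' : ℝ} (h : Shifts x y x' y') (hF : HasRandSign x y) :
    HasRandSign x' y' := by
  obtain ⟨f, c, l, hf, hc, hl, h⟩ := h
  exact randSign_of_red (Pool.Agent.PT.PT.of_isPolyTime hf) hc hl h hF

/-- a network whose effective weight has the sign of `v` gives a shift -/
theorem shifts_of_network {q v w : ℝ} (hq : q ≠ 0) (hv : v < 0) (hw : w < 0) (A : SP)
    (hA : A.ok q v) (hwt : A.wt q v = w) : Shifts (1 + q / v) (1 + v) (1 + q / w) (1 + w) := by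
  subst hwt
  refine ⟨red A, A.fac q v / v ^ A.cnt, A.wt q v / v, (PT_red A).isPolyTime, ?_, ?_, ?_⟩
  · exact div_ne_zero (A.fac_ne_zero hA) (pow_ne_zero _ hv.ne)
  · exact div_pos_of_neg_of_neg hw hv
  · intro G
    exact tutte_red hq hv.ne A hA hw.ne G

/-- **Theorem.** -/
theorem result : ∀ x y : ℝ, InR x y → ∃ x' y' : ℝ, InD x' y' ∧
    (x' - 1) * (y' - 1) = (x - 1) * (y - 1) ∧ Shifts x y x' y' ∧
    (HasRandSign x y → HasRandSign x' y') ∧ (HasFPRAS x y → HasRandSign x' y') := by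
  rintro x y ⟨hx, hy, hq, hq1, h⟩
  rw [abs_lt] at hx hy
  obtain ⟨q, hqd⟩ : ∃ q, q = (x - 1) * (y - 1) := ⟨_, rfl⟩
  obtain ⟨v, hv⟩ : ∃ v, v = y - 1 := ⟨_, rfl⟩
  rw [← hqd] at hq hq1
  have hv0 : v < 0 := by linarith
  have hq0 : 0 < q := by
    rw [hqd]
    exact mul_pos_of_neg_of_neg (by linarith) (by linarith)
  have hxv : x - 1 = q / v := by
    rw [hqd, hv]
    have : y - 1 ≠ 0 := by linarith
    field_simp
  have hS := closed_wt q v
  have hvS : v ∈ {w : ℝ | w ≠ 0 ∧ ∃ A : SP, A.ok q v ∧ A.wt q v = w} :=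
    ⟨hv0.ne, .edge, trivial, rfl⟩
  have hyv : y = 1 + v := by linarith
  have hxv' : x = 1 + q / v := by linarith
  rcases h with ⟨h1, h2, h3⟩ | ⟨h1, h2, h3⟩
  · obtain ⟨w, ⟨-, A, hA, hwt⟩, hw2, hw1, hw⟩ := hS.exists_target hq0 hq hvS (by linarith)
      (by linarith) (by
        have e : x < y ^ 2 := h2
        rw [hxv', hyv] at e
        have e2 : q / v < v ^ 2 + 2 * v := by nlinarith
        rw [div_lt_iff_of_neg hv0] at e2
        nlinarith) (by
        intro h0
        apply h3
        rw [hxv', hyv]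
        have e : q / v = -2 * (v + 2) := by
          rw [div_eq_iff hv0.ne]
          linarith
        rw [e]
        ring)
    have hsh : Shifts x y (1 + q / w) (1 + w) := by
      rw [hxv', hyv]
      exact shifts_of_network hq0.ne' hv0 (by linarith) A hA hwt
    have e2 : (1 + q / w - 1) * (1 + w - 1) = q := by
      have : w ≠ 0 := by linarith
      field_simp
      ring
    refine ⟨1 + q / w, 1 + w, ?_, by rw [e2, hqd], hsh, hsh.randSign,
      fun hF => hsh.randSign hF.randSign⟩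
    have hqw : q / w < 0 := div_neg_of_pos_of_neg hq0 (by linarith)
    have hqw2 : -2 < q / w := by
      rw [lt_div_iff_of_neg (by linarith)]
      nlinarith
    refine ⟨abs_lt.2 ⟨by linarith, by linarith⟩, abs_lt.2 ⟨by linarith, by linarith⟩,
      Or.inr (Or.inl ⟨?_, by rw [e2]; exact hq, by rw [e2]; exact hq1⟩)⟩
    have e3 : q / w < -2 * (w + 2) := by
      rw [div_lt_iff_of_neg (by linarith)]
      nlinarith
    linarith
  · obtain ⟨b, hb⟩ : ∃ b, b = q / v := ⟨_, rfl⟩
    have hb0 : b < 0 := by linarith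
    have hqb : q / b = v := by
      rw [hb]
      field_simp
    obtain ⟨w, ⟨hw0, ⟨-, A, hA, hwt⟩⟩, hw2, hw1, hw⟩ :=
      (hS.dual hq0.ne').exists_target (v := b) hq0 hq ⟨hb0.ne, by rw [hqb]; exact hvS⟩
        (by linarith) (by linarith) (by
        have e : y < x ^ 2 := h2
        have e1 : x = 1 + b := by linarith
        rw [e1, hyv, ← hqb] at e
        have e2 : q / b < b ^ 2 + 2 * b := by nlinarith
        rw [div_lt_iff_of_neg hb0] at e2
        nlinarith) (by
        intro h0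
        apply h3
        have e1 : x = 1 + b := by linarith
        rw [e1, hyv, ← hqb]
        have e : q / b = -2 * (b + 2) := by
          rw [div_eq_iff hb0.ne]
          linarith
        rw [e]
        ring)
    have hqw : q / w < 0 := div_neg_of_pos_of_neg hq0 (by linarith)
    have hqqw : q / (q / w) = w := by
      field_simp
    have hsh : Shifts x y (1 + q / (q / w)) (1 + q / w) := by
      rw [hxv', hyv]
      exact shifts_of_network hq0.ne' hv0 hqw A hA hwt
    rw [hqqw] at hsh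
    have e2 : (1 + w - 1) * (1 + q / w - 1) = q := by
      field_simp
      ring
    refine ⟨1 + w, 1 + q / w, ?_, by rw [e2, hqd], hsh, hsh.randSign,
      fun hF => hsh.randSign hF.randSign⟩
    have hqw2 : -2 < q / w := by
      rw [lt_div_iff_of_neg (by linarith)]
      nlinarith
    refine ⟨abs_lt.2 ⟨by linarith, by linarith⟩, abs_lt.2 ⟨by linarith, by linarith⟩,
      Or.inr (Or.inr ⟨?_, by rw [e2]; exact hq, by rw [e2]; exact hq1⟩)⟩
    have e3 : q / w < -2 * (w + 2) := by
      rw [div_lt_iff_of_neg (by linarith)]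
      nlinarith
    linarith

end Pool.Agent.Results.MP_9c4433_lc.NewHardRegion
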