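import Pool.Agent.QPR.Final
import Pool.Agent.QPR.Main2
import Pool.Agent.QPR.NFin

/-!
# Approximating the Tutte polynomial on the unit square in quasi-polynomial time

For all rational `x`, `y` in `[0, 1)` there is a randomised approximation scheme for the Tutte
polynomial `T (G; x, y)` of a multigraph `G`, with running time `n ^ O (log n) * poly (1 / ε)`,
where `n` is the size of `G`. For `y = 0` this is the chromatic polynomial at `q = 1 - x`.
-/

set_option autoImplicit false

namespace Pool.Agent.Results.MP_9c4433_lc.QuasiPoly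

open Pool.Agent.TutteHard

/-- quasi-polynomial randomised approximation scheme for the Tutte polynomial at `(x, y)`: a
polynomial-time machine `A`, given a multigraph `G`, the accuracy `ε = 1 / (|e| + 2)` in unary and
a string of `2 ^ (c (log₂ |G| + 1) ^ 2) * (|e| + 2) ^ c` random bits (`|G|` is the length of the
encoding of `G`), outputs with probability at least `3 / 4` a rational number between
`exp (-ε) * T (G; x, y)` and `exp ε * T (G; x, y)`; so the running time is at most
`|G| ^ O (log |G|) * poly (1 / ε)`, the random bits being read as part of the input -/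
def HasQPRAS (x y : ℝ) : Prop :=
  ∃ (A : (MGraph × List Bool) × List Bool → ℚ) (c : ℕ), N68a2faeb.IsPolyTime A ∧
    ∀ (G : MGraph) (e : List Bool),
      3 / 4 ≤ prob (2 ^ (c * (Nat.log 2 (size G) + 1) ^ 2) * (e.length + 2) ^ c)
        (fun r => ((A ((G, e), r) : ℚ) : ℝ) ∈ Set.uIcc
          (Real.exp (-(1 / (e.length + 2))) * tutte G x y)
          (Real.exp (1 / (e.length + 2)) * tutte G x y))

/-- **Theorem.** -/
theorem result : ∀ x y : ℚ, 0 ≤ x → x < 1 → 0 ≤ y → y < 1 → HasQPRAS (x : ℝ) (y : ℝ) := by
  intro x y hx hx1 hy hy1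
  obtain ⟨A, c, hA, h⟩ := QPR.final (QPR.part2 QPR.t_MIX0) x y hx hx1 hy hy1
  exact ⟨A, c, hA, fun G e => h G e _ le_rfl⟩

end Pool.Agent.Results.MP_9c4433_lc.QuasiPoly
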