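import Pool.Agent.TSG.Main

/-!
# Positivity of the Tutte polynomial in the square `|x|, |y| < 1`

Let `R` be the set of the points with `-1 < y < 0 < x`, `x + y ≤ 0`, `x + y + y² + y³ > 0` and
`x + x² + y > 0` (`Region x y`), and of their mirror images (`Region y x`). At the points of the open
square `|x|, |y| < 1` which belong to `R` or lie above the line `x + y = 0` the Tutte polynomial of
every matroid, in particular of every multigraph, is
`c * y ^ (loops) * x ^ (coloops) * (x + y) ^ (digons)` with `c > 0`, where the digons are the connected
components which consist of two parallel elements. These points are the only ones of the square where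
`T (G; x, y) > 0` for all graphs without loops, bridges and digons. (Above the line this is a theorem
of Jackson and Sokal.)

Proof. Put `q = (x - 1) (y - 1)` and consider the multivariate Tutte polynomial
`∑ A, q ^ (- r A) * ∏ e ∈ A, (y e - 1)`. If all weights `y e` are `y = -a` or belong to a certain interval
`[-m, a²]`, then blocks of two elements split off with a factor of known sign, parallel pairs and
series pairs can be merged (the new weight belongs to the interval), and in the remaining simple and
cosimple case deletion and contraction preserve the class. The interval exists if and only if the
values for four parallel edges and for the triangle are positive.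
-/

set_option autoImplicit false

namespace Pool.Agent.Results.MP_9c4433_lc.SignBeyondJacksonSokal

open Pool.Agent.QPR Pool.Agent.TutteHard Pool.Agent.TSG

/-- **Theorem.** (1) The Tutte polynomial of a matroid with the rank function `r` at a point of the
square with `GoodPt x y` is `c * y ^ (loops) * x ^ (coloops) * (x + y) ^ (digons)`, `c > 0`. (2) This
applies to the rank function of a graph. (3) The points with `GoodPt x y` are exactly the points of the
square where the Tutte polynomials of all graphs without loops, bridges and digons are positive. -/
theorem result :
    (∀ (α : Type) [Fintype α] [DecidableEq α] (r : Finset α → ℕ), IsRank r → ∀ x y : ℝ,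
      |x| < 1 → |y| < 1 → GoodPt x y → ∃ c : ℝ, 0 < c ∧ tutteM r x y =
        c * (y ^ (loops r).card * x ^ (coloops r).card * (x + y) ^ (digons r).card)) ∧
    (∀ G : MGraph, IsRank (rank G) ∧ ∀ x y : ℝ, tutte G x y = tutteM (rank G) x y) ∧
    ∀ x y : ℝ, |x| < 1 → |y| < 1 →
      ((∀ G : MGraph, Plain G → 0 < tutte G x y) ↔ GoodPt x y) :=
  ⟨fun _ _ _ _ h _ _ hx hy hxy => matroid h hx hy hxy,
    fun G => ⟨rank_isRank G, tutte_eq_tutteM G⟩, fun _ _ hx hy => sharp hx hy⟩

end Pool.Agent.Results.MP_9c4433_lc.SignBeyondJacksonSokal
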